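import Pool.Agent.Helper92.Cut.Ind1

/-!
# A genuine `Δ₃` cut in a model of `Σ₂`-bounding

All definitions used by the statement (terms `Tm`, formulas `Fm`, structures `Arith`, satisfaction
`Fm.Sat`, the classes `IsSigma`, `IsPi`, the theory `PAminus`, the schemes `Bounding`, `Induction`,
the notions `IsCut`, `DefinableBy`) are in `Pool/Agent/Helper92/Cut/Defs.lean`.
-/

open Pool.Agent.Helper92.Cut

/-- There is a model `M` of `PA⁻ + exp + IΣ₁ + BΣ₂` in which `IΣ₂` fails, with a cut `J`, closed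
under `+`, `·` and `^`, which is definable (with parameters) by a `Σ₃` formula and by a `Π₃`
formula, but by no `Σ₂` formula and by no `Π₂` formula. -/
theorem Pool.Agent.Results.MP_18cfb4_lc.GenuineDelta3Cut.result :
    ∃ M : Arith, PAminus M ∧ Induction M (IsSigma 1) ∧ Bounding M (IsSigma 2) ∧
      ¬ Induction M (IsSigma 2) ∧
      ∃ J : Set M.D, IsCut M J ∧
        (∀ x ∈ J, ∀ y ∈ J, M.add x y ∈ J ∧ M.mul x y ∈ J ∧ M.pow x y ∈ J) ∧
        DefinableBy M (IsSigma 3) J ∧ DefinableBy M (IsPi 3) J ∧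
        ¬ DefinableBy M (IsSigma 2) J ∧ ¬ DefinableBy M (IsPi 2) J :=
  Pool.Agent.Helper92.Cut.main'
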